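import Mathlib

/-!
# MP_7b644b_an : a trace criterion; the case `n ≤ 4`
-/

open Matrix Polynomial

namespace Pool.Agent.Results.MP_7b644b_an.QuarterOfIndices

/-- The real matrix `M`, seen as a complex matrix, has an eigenvalue of modulus at least `1`;
this is `ρ(M) ≥ 1`. -/
def RadiusAtLeastOne {n : ℕ} (M : Matrix (Fin n) (Fin n) ℝ) : Prop :=
  ∃ μ ∈ spectrum ℂ (M.map (fun t : ℝ => (t : ℂ))), 1 ≤ ‖μ‖

/-- Row-stochastic matrices. -/
def RowStochastic {n : ℕ} (A : Matrix (Fin n) (Fin n) ℝ) : Prop :=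
  (∀ i j, 0 ≤ A i j) ∧ ∀ i, ∑ j, A i j = 1

lemma trace_sq_lt {n : ℕ} (hn : 0 < n) (M : Matrix (Fin n) (Fin n) ℂ)
    (h : ∀ μ ∈ spectrum ℂ M, ‖μ‖ < 1) : ‖(M ^ 2).trace‖ < n := by
  rw [Matrix.trace_eq_sum_roots_charpoly]
  have hcard : Multiset.card (M ^ 2).charpoly.roots = n := by
    rw [IsAlgClosed.card_roots_eq_natDegree, Matrix.charpoly_natDegree_eq_dim, Fintype.card_fin]
  have hne : (M ^ 2).charpoly.roots ≠ 0 := by
    intro h0
    rw [h0] at hcard
    simp at hcard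
    omega
  have hlt : ∀ μ ∈ (M ^ 2).charpoly.roots, ‖μ‖ < 1 := by
    intro μ hμ
    have h1 : μ ∈ spectrum ℂ (M ^ 2) :=
      Matrix.mem_spectrum_of_isRoot_charpoly (Polynomial.isRoot_of_mem_roots hμ)
    rw [spectrum.map_pow_of_pos M (by norm_num : 0 < 2)] at h1
    obtain ⟨ν, hν, rfl⟩ := h1
    simp only [norm_pow]
    have := h ν hν
    have h0 := norm_nonneg ν
    nlinarith
  calc ‖(M ^ 2).charpoly.roots.sum‖ ≤ ((M ^ 2).charpoly.roots.map (fun x => ‖x‖)).sum :=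
        norm_multiset_sum_le _
    _ < ((M ^ 2).charpoly.roots.map (fun _ => (1 : ℝ))).sum :=
        Multiset.sum_lt_sum_of_nonempty hne hlt
    _ = n := by
        rw [Multiset.map_const', Multiset.sum_replicate, hcard]
        simp

lemma criterion {n : ℕ} (hn : 0 < n) (M : Matrix (Fin n) (Fin n) ℝ)
    (h : (n : ℝ) ≤ ∑ i, ∑ j, M i j * M j i) : RadiusAtLeastOne M := by
  unfold RadiusAtLeastOne
  by_contra hc
  push Not at hc
  have h1 := trace_sq_lt hn _ hc
  have h2 : ((M.map (fun t : ℝ => (t : ℂ))) ^ 2).trace = ((∑ i, ∑ j, M i j * M j i : ℝ) : ℂ) := by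
    rw [pow_two, Matrix.trace]
    push_cast
    simp only [Matrix.diag_apply, Matrix.mul_apply, Matrix.map_apply]
  rw [h2, Complex.norm_real, Real.norm_eq_abs] at h1
  have := le_abs_self (∑ i, ∑ j, M i j * M j i)
  linarith

lemma trace_lower {n : ℕ} (A : Matrix (Fin n) (Fin n) ℝ) (e : Fin n → ℝ)
    (hA : RowStochastic A) :
    ∑ i, (A i i - e i) ^ 2 ≤
      ∑ i, ∑ j, (A - Matrix.diagonal e) i j * (A - Matrix.diagonal e) j i := by
  apply Finset.sum_le_sum
  intro i _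
  have h1 : (A i i - e i) ^ 2 = (A - Matrix.diagonal e) i i * (A - Matrix.diagonal e) i i := by
    simp [pow_two]
  rw [h1]
  apply Finset.single_le_sum (f := fun j => (A - Matrix.diagonal e) i j *
    (A - Matrix.diagonal e) j i) _ (Finset.mem_univ i)
  intro j _
  by_cases hij : i = j
  · subst hij
    exact mul_self_nonneg _
  · have e1 : (A - Matrix.diagonal e) i j = A i j := by
      simp [Matrix.diagonal_apply_ne _ hij]
    have e2 : (A - Matrix.diagonal e) j i = A j i := by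
      simp [Matrix.diagonal_apply_ne _ (Ne.symm hij)]
    simp only [e1, e2]
    exact mul_nonneg (hA.1 i j) (hA.1 j i)

/-- (1) If `∑_i (A_ii - E_i)^2 ≥ n` then `ρ(A - E) ≥ 1`. (2) If at least a quarter of the indices
satisfy `E(i) ≥ 3` then `ρ(A - E) ≥ 1`. (3) Q1 holds for `n ≤ 4`. -/
theorem result :
    (∀ (n : ℕ) (A : Matrix (Fin n) (Fin n) ℝ) (e : Fin n → ℝ), 0 < n → RowStochastic A →
      (n : ℝ) ≤ ∑ i, (A i i - e i) ^ 2 → RadiusAtLeastOne (A - Matrix.diagonal e)) ∧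
    (∀ (n : ℕ) (A : Matrix (Fin n) (Fin n) ℝ) (e : Fin n → ℝ), 0 < n → RowStochastic A →
      n ≤ 4 * (Finset.univ.filter (fun i => 3 ≤ e i)).card →
        RadiusAtLeastOne (A - Matrix.diagonal e)) ∧
    (∀ (n : ℕ) (A : Matrix (Fin n) (Fin n) ℝ) (e : Fin n → ℝ), n ≤ 4 → RowStochastic A →
      (∃ i, 3 ≤ e i) → RadiusAtLeastOne (A - Matrix.diagonal e)) := by
  have p1 : ∀ (n : ℕ) (A : Matrix (Fin n) (Fin n) ℝ) (e : Fin n → ℝ), 0 < n → RowStochastic A →
      (n : ℝ) ≤ ∑ i, (A i i - e i) ^ 2 → RadiusAtLeastOne (A - Matrix.diagonal e) := by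
    intro n A e hn hA h
    exact criterion hn _ (h.trans (trace_lower A e hA))
  have p2 : ∀ (n : ℕ) (A : Matrix (Fin n) (Fin n) ℝ) (e : Fin n → ℝ), 0 < n → RowStochastic A →
      n ≤ 4 * (Finset.univ.filter (fun i => 3 ≤ e i)).card →
        RadiusAtLeastOne (A - Matrix.diagonal e) := by
    intro n A e hn hA h
    apply p1 n A e hn hA
    have h1 : ∑ i ∈ Finset.univ.filter (fun i => 3 ≤ e i), (4 : ℝ) ≤
        ∑ i ∈ Finset.univ.filter (fun i => 3 ≤ e i), (A i i - e i) ^ 2 := by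
      apply Finset.sum_le_sum
      intro i hi
      have hi3 : 3 ≤ e i := (Finset.mem_filter.mp hi).2
      have hAi : A i i ≤ 1 := by
        rw [← hA.2 i]
        exact Finset.single_le_sum (fun j _ => hA.1 i j) (Finset.mem_univ i)
      nlinarith
    have h2 : ∑ i ∈ Finset.univ.filter (fun i => 3 ≤ e i), (A i i - e i) ^ 2 ≤
        ∑ i, (A i i - e i) ^ 2 :=
      Finset.sum_le_sum_of_subset_of_nonneg (Finset.subset_univ _) (fun i _ _ => sq_nonneg _)
    rw [Finset.sum_const, nsmul_eq_mul] at h1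
    have h3 : (n : ℝ) ≤ 4 * ((Finset.univ.filter (fun i => 3 ≤ e i)).card : ℝ) := by
      exact_mod_cast h
    linarith
  refine ⟨p1, p2, ?_⟩
  intro n A e hn hA ⟨i, hi⟩
  have hpos : 0 < n := i.pos
  apply p2 n A e hpos hA
  have : 0 < (Finset.univ.filter (fun i => 3 ≤ e i)).card :=
    Finset.card_pos.mpr ⟨i, Finset.mem_filter.mpr ⟨Finset.mem_univ _, hi⟩⟩
  omega

end Pool.Agent.Results.MP_7b644b_an.QuarterOfIndices
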