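import Pool.Agent.Results.MP_7b644b_an.QuarterOfIndices

namespace Pool.Agent.Results.MP_7b644b_an.SquareRootThreshold

open Pool.Agent.Results.MP_7b644b_an.QuarterOfIndices
open Matrix

/-- strict diagonal dominance with positive diagonal -/
lemma det_pos_of_dom {n : ℕ} (K : Matrix (Fin n) (Fin n) ℝ)
    (h : ∀ k, ∑ j ∈ Finset.univ.erase k, |K k j| < K k k) : 0 < K.det := by
  by_contra hc
  push Not at hc
  let P : ℝ → Matrix (Fin n) (Fin n) ℝ := fun t => fun i j => if i = j then K i j else t * K i j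
  have hcont : Continuous (fun t => (P t).det) := by
    apply Continuous.matrix_det
    apply continuous_matrix
    intro i j
    by_cases hij : i = j
    · simp [P, hij, continuous_const]
    · simp only [P, hij, if_false]; fun_prop
  have h0 : 0 < (P 0).det := by
    have : P 0 = Matrix.diagonal (fun i => K i i) := by
      ext i j
      by_cases hij : i = j
      · subst hij; simp [P]
      · simp [P, hij, Matrix.diagonal_apply_ne]
    rw [this, Matrix.det_diagonal]
    apply Finset.prod_pos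
    intro i _
    exact lt_of_le_of_lt (Finset.sum_nonneg (fun j _ => abs_nonneg _)) (h i)
  have h1 : (P 1).det ≤ 0 := by
    have : P 1 = K := by
      ext i j
      by_cases hij : i = j <;> simp [P, hij]
    rwa [this]
  have hiv := intermediate_value_Icc' (f := fun t => (P t).det) (zero_le_one' ℝ)
    hcont.continuousOn
  obtain ⟨t, ht, ht0⟩ := hiv (show (0:ℝ) ∈ Set.Icc ((P 1).det) ((P 0).det) from ⟨h1, h0.le⟩)
  refine det_ne_zero_of_sum_row_lt_diag (A := P t) ?_ ht0
  intro k
  have hkk : ‖P t k k‖ = K k k := by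
    have hk0 : 0 < K k k :=
      lt_of_le_of_lt (Finset.sum_nonneg (fun j _ => abs_nonneg _)) (h k)
    simp [P, abs_of_pos hk0]
  rw [hkk]
  refine lt_of_le_of_lt ?_ (h k)
  apply Finset.sum_le_sum
  intro j hj
  have hjk : k ≠ j := (Finset.ne_of_mem_erase hj).symm
  simp only [P, hjk, if_false, Real.norm_eq_abs, abs_mul, abs_of_nonneg ht.1]
  have := abs_nonneg (K k j)
  nlinarith [ht.2]

/-- weak diagonal dominance -/
lemma det_nonneg_of_dom {n : ℕ} (K : Matrix (Fin n) (Fin n) ℝ)
    (h : ∀ k, ∑ j ∈ Finset.univ.erase k, |K k j| ≤ K k k) : 0 ≤ K.det := by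
  have hcont : Continuous (fun t : ℝ => (K + t • (1 : Matrix (Fin n) (Fin n) ℝ)).det) := by
    apply Continuous.matrix_det
    fun_prop
  have hpos : ∀ t : ℝ, 0 < t → 0 ≤ (K + t • (1 : Matrix (Fin n) (Fin n) ℝ)).det := by
    intro t ht
    apply le_of_lt
    apply det_pos_of_dom
    intro k
    have e1 : (K + t • (1 : Matrix (Fin n) (Fin n) ℝ)) k k = K k k + t := by simp
    rw [e1]
    have e2 : ∑ j ∈ Finset.univ.erase k, |(K + t • (1 : Matrix (Fin n) (Fin n) ℝ)) k j|
        = ∑ j ∈ Finset.univ.erase k, |K k j| := by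
      apply Finset.sum_congr rfl
      intro j hj
      have hjk : k ≠ j := (Finset.ne_of_mem_erase hj).symm
      simp [Matrix.one_apply_ne hjk]
    rw [e2]
    have := h k
    linarith
  have hlim : Filter.Tendsto (fun t : ℝ => (K + t • (1 : Matrix (Fin n) (Fin n) ℝ)).det)
      (nhdsWithin 0 (Set.Ioi 0)) (nhds ((K + (0:ℝ) • (1 : Matrix (Fin n) (Fin n) ℝ)).det)) :=
    (hcont.tendsto 0).mono_left nhdsWithin_le_nhds
  rw [zero_smul, add_zero] at hlim
  exact ge_of_tendsto hlim (by
    filter_upwards [self_mem_nhdsWithin] with t ht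
    exact hpos t ht)

/-- a zero of `det (y + M)` on `[1, ∞)` gives an eigenvalue of modulus at least one -/
lemma radius_of_det {n : ℕ} (M : Matrix (Fin n) (Fin n) ℝ) (y : ℝ) (hy : 1 ≤ y)
    (h : (M + y • (1 : Matrix (Fin n) (Fin n) ℝ)).det = 0) : RadiusAtLeastOne M := by
  refine ⟨((-y : ℝ) : ℂ), ?_, ?_⟩
  · rw [spectrum.mem_iff]
    intro hu
    rw [Matrix.isUnit_iff_isUnit_det] at hu
    apply hu.ne_zero
    have e1 : (algebraMap ℂ (Matrix (Fin n) (Fin n) ℂ)) ((-y : ℝ) : ℂ)
        - M.map (fun t : ℝ => (t : ℂ))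
        = -((M + y • (1 : Matrix (Fin n) (Fin n) ℝ)).map (fun t : ℝ => (t : ℂ))) := by
      ext i j
      by_cases hij : i = j
      · subst hij
        simp [Matrix.algebraMap_matrix_apply]
        ring
      · simp [Matrix.algebraMap_matrix_apply, hij, Matrix.one_apply_ne hij]
    rw [e1, Matrix.det_neg]
    have e2 : ((M + y • (1 : Matrix (Fin n) (Fin n) ℝ)).map (fun t : ℝ => (t : ℂ))).det
        = (((M + y • (1 : Matrix (Fin n) (Fin n) ℝ)).det : ℝ) : ℂ) := by
      have := RingHom.map_det Complex.ofRealHom (M + y • (1 : Matrix (Fin n) (Fin n) ℝ))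
      rw [show (((M + y • (1 : Matrix (Fin n) (Fin n) ℝ)).det : ℝ) : ℂ)
        = Complex.ofRealHom (M + y • (1 : Matrix (Fin n) (Fin n) ℝ)).det from rfl, this]
      rfl
    rw [e2, h]
    simp
  · rw [Complex.norm_real, Real.norm_eq_abs, abs_neg, abs_of_nonneg (by linarith)]
    exact hy

lemma off_sum {n : ℕ} {A : Matrix (Fin n) (Fin n) ℝ} (hA : RowStochastic A) (k : Fin n) :
    ∑ j ∈ Finset.univ.erase k, |A k j| = 1 - A k k := by
  have : ∑ j ∈ Finset.univ.erase k, |A k j| = ∑ j ∈ Finset.univ.erase k, A k j :=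
    Finset.sum_congr rfl (fun j _ => abs_of_nonneg (hA.1 k j))
  rw [this]
  have h1 := Finset.add_sum_erase Finset.univ (fun j => A k j) (Finset.mem_univ k)
  have h2 := hA.2 k
  linarith

/-- the isolated row criterion -/
theorem isolated {n : ℕ} (A : Matrix (Fin n) (Fin n) ℝ) (e : Fin n → ℝ) (hA : RowStochastic A)
    (i : Fin n) (hi : 2 ≤ e i) (hj : ∀ j, j ≠ i → e j ≤ e i - 2 + 2 * A j j) :
    RadiusAtLeastOne (A - Matrix.diagonal e) := by
  set M := A - Matrix.diagonal e with hM
  let f : ℝ → ℝ := fun y => (M + y • (1 : Matrix (Fin n) (Fin n) ℝ)).det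
  have hcont : Continuous f := by
    apply Continuous.matrix_det
    fun_prop
  have entry_off : ∀ (y : ℝ) (k j : Fin n), k ≠ j →
      (M + y • (1 : Matrix (Fin n) (Fin n) ℝ)) k j = A k j := by
    intro y k j hkj
    simp [hM, Matrix.diagonal_apply_ne _ hkj, Matrix.one_apply_ne hkj]
  have entry_diag : ∀ (y : ℝ) (k : Fin n),
      (M + y • (1 : Matrix (Fin n) (Fin n) ℝ)) k k = A k k - e k + y := by
    intro y k
    simp [hM]
  have off : ∀ (y : ℝ) (k : Fin n),
      ∑ j ∈ Finset.univ.erase k, |(M + y • (1 : Matrix (Fin n) (Fin n) ℝ)) k j| = 1 - A k k := by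
    intro y k
    rw [← off_sum hA k]
    apply Finset.sum_congr rfl
    intro j hj
    rw [entry_off y k j (Finset.ne_of_mem_erase hj).symm]
  -- nonpositive at x = e i - 1
  have hneg : f (e i - 1) ≤ 0 := by
    set K := M + (e i - 1) • (1 : Matrix (Fin n) (Fin n) ℝ) with hK
    let s : Fin n → ℝ := fun k => if k = i then -1 else 1
    have hs : (Matrix.diagonal s * K).det = - K.det := by
      rw [Matrix.det_mul, Matrix.det_diagonal]
      have : ∏ k, s k = -1 := by
        rw [Finset.prod_ite_eq' Finset.univ i (fun _ => (-1 : ℝ))]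
        simp
      rw [this]; ring
    have habs : ∀ k, |s k| = 1 := by
      intro k
      by_cases hk : k = i <;> simp [s, hk]
    have h0 : 0 ≤ (Matrix.diagonal s * K).det := by
      apply det_nonneg_of_dom
      intro k
      have e1 : ∀ j, (Matrix.diagonal s * K) k j = s k * K k j := by
        intro j; rw [Matrix.diagonal_mul]
      have e2 : ∑ j ∈ Finset.univ.erase k, |(Matrix.diagonal s * K) k j| = 1 - A k k := by
        rw [← off (e i - 1) k]
        apply Finset.sum_congr rfl
        intro j _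
        rw [e1, abs_mul, habs, one_mul]
      rw [e2, e1, hK, entry_diag]
      by_cases hk : k = i
      · subst hk
        simp only [s, if_true]
        linarith
      · simp only [s, hk, if_false]
        have := hj k hk
        linarith
    show K.det ≤ 0
    linarith
  -- positive for large y
  obtain ⟨B, hB⟩ : ∃ B : ℝ, ∀ k, |e k| ≤ B := by
    refine ⟨∑ k, |e k|, fun k => ?_⟩
    exact Finset.single_le_sum (f := fun k => |e k|) (fun j _ => abs_nonneg _)
      (Finset.mem_univ k)
  set Y : ℝ := max (e i - 1) (B + 2) with hY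
  have hpos : 0 < f Y := by
    apply det_pos_of_dom
    intro k
    rw [off, entry_diag]
    have h1 := le_abs_self (e k)
    have h2 := hB k
    have h3 : B + 2 ≤ Y := le_max_right _ _
    have h4 := hA.1 k k
    linarith
  have hiv := intermediate_value_Icc (f := f) (le_max_left (e i - 1) (B + 2)) hcont.continuousOn
  obtain ⟨y, hy, hy0⟩ := hiv (show (0:ℝ) ∈ Set.Icc (f (e i - 1)) (f Y) from ⟨hneg, hpos.le⟩)
  exact radius_of_det M y (by linarith [hy.1]) hy0

/-- Let `A` be row-stochastic and `E = diag e` real of any signs.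
(1) If `e i ≥ 2` and `e j ≤ e i - 2 + 2 A(j,j)` for all `j ≠ i`, then `ρ(A - E) ≥ 1`.
(2) If `e i ≥ 2` and `(e i - 1)² + (e i - 2)² ≥ n`, then `ρ(A - E) ≥ 1`.
(3) Q1 holds for all `n ≤ 5`. -/
theorem result :
    (∀ (n : ℕ) (A : Matrix (Fin n) (Fin n) ℝ) (e : Fin n → ℝ), RowStochastic A →
      ∀ i, 2 ≤ e i → (∀ j, j ≠ i → e j ≤ e i - 2 + 2 * A j j) →
        RadiusAtLeastOne (A - Matrix.diagonal e)) ∧
    (∀ (n : ℕ) (A : Matrix (Fin n) (Fin n) ℝ) (e : Fin n → ℝ), RowStochastic A →
      ∀ i, 2 ≤ e i → (n : ℝ) ≤ (e i - 1) ^ 2 + (e i - 2) ^ 2 →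
        RadiusAtLeastOne (A - Matrix.diagonal e)) ∧
    (∀ (n : ℕ) (A : Matrix (Fin n) (Fin n) ℝ) (e : Fin n → ℝ), RowStochastic A → n ≤ 5 →
      (∃ i, 3 ≤ e i) → RadiusAtLeastOne (A - Matrix.diagonal e)) := by
  have p2 : ∀ (n : ℕ) (A : Matrix (Fin n) (Fin n) ℝ) (e : Fin n → ℝ), RowStochastic A →
      ∀ i, 2 ≤ e i → (n : ℝ) ≤ (e i - 1) ^ 2 + (e i - 2) ^ 2 →
        RadiusAtLeastOne (A - Matrix.diagonal e) := by
    intro n A e hA i hi hn
    have hpos : 0 < n := i.pos
    by_contra hc
    have hAle : ∀ k, A k k ≤ 1 := by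
      intro k
      rw [← hA.2 k]
      exact Finset.single_le_sum (fun j _ => hA.1 k j) (Finset.mem_univ k)
    have hq := QuarterOfIndices.result.1 n A e hpos hA
    have hsum : ∑ k, (A k k - e k) ^ 2 < n := by
      by_contra hcc
      push Not at hcc
      exact hc (hq hcc)
    apply hc
    apply isolated A e hA i hi
    intro j hji
    have h2 : (A i i - e i) ^ 2 + (A j j - e j) ^ 2 ≤ ∑ k, (A k k - e k) ^ 2 := by
      rw [← Finset.sum_pair (f := fun k => (A k k - e k) ^ 2) (Ne.symm hji)]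
      apply Finset.sum_le_sum_of_subset_of_nonneg (Finset.subset_univ _)
      intro k _ _
      positivity
    have h3 : (e i - 1) ^ 2 ≤ (A i i - e i) ^ 2 := by
      have := hAle i
      nlinarith
    have h4 : (A j j - e j) ^ 2 < (e i - 2) ^ 2 := by linarith
    have h5 : |A j j - e j| < |e i - 2| := sq_lt_sq.1 h4
    rw [abs_of_nonneg (by linarith : 0 ≤ e i - 2)] at h5
    have h6 := (abs_lt.1 h5).1
    have h7 := hA.1 j j
    linarith
  refine ⟨fun n A e hA i hi hj => isolated A e hA i hi hj, p2, ?_⟩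
  intro n A e hA hn ⟨i, hi⟩
  apply p2 n A e hA i (by linarith)
  have : (n : ℝ) ≤ 5 := by exact_mod_cast hn
  nlinarith

end Pool.Agent.Results.MP_7b644b_an.SquareRootThreshold
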