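import Pool.Agent.X62.SR.Data

namespace Pool.Agent.Results.MP_7b644b_an.ThresholdLowerBound

open Pool.Agent.X62.SR

noncomputable section

/-- return weights -/
def q (k : ℕ) : ℝ :=
  if k = 0 then 1 - ∑ j ∈ Finset.Ico 1 60, (zL.getD j 0 : ℝ) / 1000 ^ (j + 1)
  else (zL.getD k 0 : ℝ) / 1000 ^ (k + 1)

/-- the diagonal matrix -/
def E (i : Fin 60) : ℝ :=
  if (i : ℕ) = 0 then q 0 + 804 / 1000 + 999 / 1000 else 999 / 1000 - (uL.getD i 0 : ℝ) / 1000

lemma zL_nonneg : ∀ k < 60, 0 ≤ zL.getD k 0 := by decide +kernel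
lemma uL_le : ∀ k < 60, uL.getD k 0 ≤ 999 := by decide +kernel
lemma zL_last : 0 < zL.getD 59 0 := by decide +kernel

lemma q_pos_form {k : ℕ} (hk : k ≠ 0) : q k = (zL.getD k 0 : ℝ) / 1000 ^ (k + 1) := by
  simp [q, hk]

lemma sum_bound : ∑ j ∈ Finset.Ico 1 60, (zL.getD j 0 : ℝ) / 1000 ^ (j + 1) ≤ 193/1000 := by
  rw [Finset.sum_Ico_eq_sum_range]
  simp only [Finset.sum_range_succ, Finset.sum_range_zero, zL]
  norm_num

lemma q_nonneg : ∀ k < 60, 0 ≤ q k := by
  intro k hk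
  by_cases h : k = 0
  · subst h
    have := sum_bound
    simp only [q, if_true]
    linarith
  · rw [q_pos_form h]
    have : (0 : ℝ) ≤ (zL.getD k 0 : ℝ) := by exact_mod_cast zL_nonneg k hk
    positivity

lemma q_last : 0 < q (60 - 1) := by
  rw [q_pos_form (by norm_num)]
  have : (0 : ℝ) < (zL.getD (60-1) 0 : ℝ) := by exact_mod_cast zL_last
  positivity

lemma Qs_zero : Qs 60 q 0 = 1 := by
  rw [Qs_succ (by norm_num)]
  have : Qs 60 q (0+1) = ∑ j ∈ Finset.Ico 1 60, (zL.getD j 0 : ℝ) / 1000 ^ (j + 1) := by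
    unfold Qs
    apply Finset.sum_congr rfl
    intro j hj
    rw [q_pos_form]
    have := (Finset.mem_Ico.1 hj).1
    omega
  rw [this]
  simp [q]

lemma E_nonneg (i : Fin 60) : 0 ≤ E i := by
  unfold E
  split_ifs with h
  · have := q_nonneg 0 (by norm_num)
    linarith
  · have : (uL.getD i 0 : ℝ) ≤ 999 := by exact_mod_cast uL_le i i.2
    linarith

lemma E_zero : 261/100 ≤ E 0 := by
  have := sum_bound
  simp only [E, q, Fin.val_zero, if_true]
  linarith

lemma poly_rel (μ : ℂ) (v : Fin 60 → ℂ)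
    (hv : Matrix.mulVec ((chainA 60 q - Matrix.diagonal E).map (algebraMap ℝ ℂ)) v = μ • v)
    (k : ℕ) (hk : k < 60) :
    1000 ^ (k + 1) * ww 60 q v (k + 1)
      = ev (PL 804 uL zL k) (1000 * (μ + 999 / 1000)) * ww 60 q v 0 := by
  induction k with
  | zero =>
    have h := row_eq E (by norm_num) q_nonneg q_last Qs_zero μ v hv 0 hk
    rw [h]
    simp only [PL, ev_cons, ev_nil, E, if_true]
    push_cast
    ring
  | succ k ih =>
    have h := row_eq E (by norm_num) q_nonneg q_last Qs_zero μ v hv (k+1) hk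
    have ih' := ih (by omega)
    rw [h, PL, ev_stepL]
    have hE : E ⟨k+1, hk⟩ = 999 / 1000 - (uL.getD (k+1) 0 : ℝ) / 1000 := by simp [E]
    have hq : q (k+1) = (zL.getD (k+1) 0 : ℝ) / 1000 ^ (k + 1 + 1) := q_pos_form (by omega)
    rw [hE, hq]
    push_cast
    have hp : (1000 : ℂ) ^ (k+1+1) ≠ 0 := pow_ne_zero _ (by norm_num)
    have e1 : (1000:ℂ) ^ (k+1+1) * (((zL.getD (k+1) 0 : ℤ) : ℂ) / 1000 ^ (k+1+1)
        * ww 60 q v 0) = ((zL.getD (k+1) 0 : ℤ) : ℂ) * ww 60 q v 0 := by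
      field_simp
    rw [mul_sub, e1]
    rw [pow_succ]
    linear_combination (1000 * (μ + (999/1000 - ((uL.getD (k+1) 0 : ℤ) : ℂ) / 1000))) * ih'

lemma ev_rep (m : ℕ) (x : ℂ) : ev (List.replicate m 0 ++ [1]) x = x ^ m := by
  induction m with
  | zero => simp [ev_cons, ev_nil]
  | succ m ih =>
    rw [List.replicate_succ, List.cons_append, ev_cons, ih, pow_succ]
    push_cast; ring

/-- a zero of the real quadratic lies in the disc -/
lemma quad_disc (a b : ℝ) (c d : ℤ) (hc : (c : ℝ) = a ^ 2 + b ^ 2) (hd : (d : ℝ) = - 2 * a)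
    (hab : (a - 999) ^ 2 + b ^ 2 < 1000 ^ 2) (μ : ℂ)
    (h : ev [c, d, 1] (1000 * (μ + 999 / 1000)) = 0) : ‖μ‖ < 1 := by
  set X : ℂ := 1000 * (μ + 999 / 1000) with hX
  have hcc : (c : ℂ) = (a:ℂ) ^ 2 + (b:ℂ) ^ 2 := by exact_mod_cast congrArg (fun r : ℝ => (r : ℂ)) hc
  have hdd : (d : ℂ) = - 2 * (a:ℂ) := by
    have := congrArg (fun r : ℝ => (r : ℂ)) hd
    push_cast at this
    exact this
  simp only [ev_cons, ev_nil, hcc, hdd] at h
  have h' : (X - (a + b * Complex.I)) * (X - (a - b * Complex.I)) = 0 := by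
    have hI : Complex.I ^ 2 = -1 := Complex.I_sq
    push_cast at h
    linear_combination h - (b:ℂ) ^ 2 * hI
  have key : ∀ s : ℝ, s ^ 2 = b ^ 2 → X = a + s * Complex.I → ‖μ‖ < 1 := by
    intro s hs hXs
    have hμ : μ = (((a - 999) / 1000 : ℝ) : ℂ) + ((s / 1000 : ℝ) : ℂ) * Complex.I := by
      push_cast
      rw [hX] at hXs
      linear_combination (1/1000 : ℂ) * hXs
    have hn : ‖μ‖ ^ 2 < 1 := by
      rw [hμ, ← Complex.normSq_eq_norm_sq, Complex.normSq_add_mul_I]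
      nlinarith
    nlinarith [norm_nonneg μ]
  rcases mul_eq_zero.1 h' with h1 | h1
  · exact key b rfl (by linear_combination h1)
  · exact key (-b) (by ring) (by push_cast; linear_combination h1)

lemma lin_disc (a : ℤ) (ha : 0 ≤ a) (ha' : a < 1999) (μ : ℂ)
    (h : ev [-a, 1] (1000 * (μ + 999 / 1000)) = 0) : ‖μ‖ < 1 := by
  simp only [ev_cons, ev_nil] at h
  have hμ : μ = (((a - 999) / 1000 : ℝ) : ℂ) := by
    push_cast at h ⊢
    linear_combination (1/1000 : ℂ) * h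
  have h0 : (0:ℝ) ≤ a := by exact_mod_cast ha
  have h1 : (a:ℝ) < 1999 := by exact_mod_cast ha'
  rw [hμ, Complex.norm_real, Real.norm_eq_abs, abs_lt]
  constructor <;> linarith

theorem main (μ : ℂ)
    (hμ : Module.End.HasEigenvalue (Matrix.toLin' ((chainA 60 q - Matrix.diagonal E).map
      (algebraMap ℝ ℂ))) μ) : ‖μ‖ < 1 := by
  obtain ⟨v, hv⟩ := hμ.exists_hasEigenvector
  have hv0 := hv.2
  have hv1 := hv.apply_eq_smul
  rw [Matrix.toLin'_apply] at hv1
  have h := poly_rel μ v hv1 59 (by norm_num)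
  have hz : ww 60 q v (59 + 1) = 0 := by simp [ww]
  rw [hz, mul_zero, PL_final] at h
  have hw0 : ww 60 q v 0 ≠ 0 := by
    intro h0
    apply hv0
    apply ww_zero_imp (by norm_num) q_nonneg q_last
    intro k hk
    rcases k with _ | k
    · exact h0
    · have := poly_rel μ v hv1 k (by omega)
      rw [h0, mul_zero] at this
      have hp : (1000 : ℂ) ^ (k+1) ≠ 0 := pow_ne_zero _ (by norm_num)
      exact (mul_eq_zero.1 this).resolve_left hp
  have h2 := (mul_eq_zero.1 h.symm).resolve_right hw0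
  simp only [ev_mulL, mul_eq_zero, ev_rep] at h2
  rcases h2 with h2 | h2 | h2 | h2 | h2 | h2 | h2
  · exact quad_disc 207 609 _ _ (by norm_num) (by norm_num) (by norm_num) μ h2
  · exact quad_disc 574 237 _ _ (by norm_num) (by norm_num) (by norm_num) μ h2
  · exact quad_disc 454 479 _ _ (by norm_num) (by norm_num) (by norm_num) μ h2
  · exact quad_disc 527 308 _ _ (by norm_num) (by norm_num) (by norm_num) μ h2
  · exact quad_disc 595 204 _ _ (by norm_num) (by norm_num) (by norm_num) μ h2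
  · exact lin_disc 772 (by norm_num) (by norm_num) μ h2
  · have h3 := pow_eq_zero_iff (n := 49) (by norm_num) |>.1 h2
    apply lin_disc 0 (by norm_num) (by norm_num) μ
    simp only [ev_cons, ev_nil]
    rw [h3]; norm_num

/-- There is a row-stochastic `60 × 60` matrix `A` and a nonnegative diagonal matrix with an
entry at least `2.61` such that all eigenvalues of `A - E` have modulus less than `1`. -/
theorem result : ∃ (n : ℕ) (A : Matrix (Fin n) (Fin n) ℝ) (E : Fin n → ℝ) (i : Fin n),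
    (∀ j k, 0 ≤ A j k) ∧ (∀ j, ∑ k, A j k = 1) ∧ (∀ j, 0 ≤ E j) ∧ 261 / 100 ≤ E i ∧
    ∀ μ : ℂ, Module.End.HasEigenvalue
      (Matrix.toLin' ((A - Matrix.diagonal E).map (algebraMap ℝ ℂ))) μ → ‖μ‖ < 1 :=
  ⟨60, chainA 60 q, E, 0, chainA_nonneg q_nonneg,
    chainA_row (by norm_num) q_nonneg q_last, E_nonneg, E_zero, main⟩

end

end Pool.Agent.Results.MP_7b644b_an.ThresholdLowerBound
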